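import Mathlib

/-!
# Counting maximal ideals and maximal filters of the lattice of subspaces

Let `V` be a vector space of infinite dimension `κ` over an arbitrary field `F`.

* The set of maximal ideals of the lattice of subspaces has cardinality `2 ^ (|F| ^ κ)`.
* The set of maximal filters on the lattice of subspaces has cardinality `|F| ^ (2 ^ κ)`.
-/

open Cardinal Module

namespace Pool.Agent.Results.MP_f0da7f_al.MaximalCounts

universe u v w

/-! ### The definitions of the problem -/

section Definitions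

variable (F : Type u) (V : Type v) [Field F] [AddCommGroup V] [Module F V]

/-- An ideal of the lattice `S(V)` of all subspaces of `V`: it contains `{0}`, does not contain `V`, is closed
under passing to smaller subspaces and under sums of two members. -/
structure IsSubspaceIdeal (I : Set (Submodule F V)) : Prop where
  bot_mem : ⊥ ∈ I
  top_notMem : ⊤ ∉ I
  mem_of_le : ∀ U ∈ I, ∀ W : Submodule F V, W ≤ U → W ∈ I
  sup_mem : ∀ U ∈ I, ∀ W ∈ I, U ⊔ W ∈ I

/-- A filter on the lattice `S(V)` of all subspaces of `V`: it contains `V`, does not contain `{0}`, is closed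
under passing to larger subspaces and under intersections of two members. -/
structure IsSubspaceFilter (A : Set (Submodule F V)) : Prop where
  top_mem : ⊤ ∈ A
  bot_notMem : ⊥ ∉ A
  mem_of_ge : ∀ U ∈ A, ∀ W : Submodule F V, U ≤ W → W ∈ A
  inf_mem : ∀ U ∈ A, ∀ W ∈ A, U ⊓ W ∈ A

/-- The set of maximal ideals of `S(V)` (ideals that are maximal under inclusion among ideals). -/
def maximalIdeals : Set (Set (Submodule F V)) := {I | Maximal (IsSubspaceIdeal F V) I}

/-- The set of maximal filters on `S(V)` (filters that are maximal under inclusion among filters). -/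
def maximalFilters : Set (Set (Submodule F V)) := {A | Maximal (IsSubspaceFilter F V) A}

end Definitions

/-! ### A closing-off lemma -/


section ClosingOff

variable {L : Type v} {J : Type v}

/-- If each relation `R s` (`s ∈ J`) is `Noetherian`, then every set `A` has a subset `B`, given as the range of a function on a type
of size at most `2 ^ #J`, which detects the union of the relations. -/
theorem closing_off (hJ : ℵ₀ ≤ #J) (R : J → L → L → Prop)
    (hR : ∀ s : J, ∀ A : Set L, ∃ t : Finset L, ↑t ⊆ A ∧ ∀ U, (∀ W ∈ t, R s U W) → ∀ W ∈ A, R s U W)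
    (A : Set L) (hA : A.Nonempty) :
    ∃ h : Set J → L, (∀ q, h q ∈ A) ∧ ∀ U, (∀ q, ∃ s, R s U (h q)) → ∀ W ∈ A, ∃ s, R s U W := by
  classical
  obtain ⟨W₀, hW₀⟩ := hA
  -- closure operator
  let C : (J → Finset L) → J → Set L := fun D s => {W | W ∈ A ∧ ∀ U, (∀ W' ∈ D s, R s U W') → R s U W}
  let g : (J → Finset L) → L := fun D =>
    if hD : ∃ W ∈ A, ∀ s, W ∉ C D s then hD.choose else W₀
  have hgA : ∀ D, g D ∈ A := by
    intro D
    by_cases hD : ∃ W ∈ A, ∀ s, W ∉ C D s
    · simp only [g, dif_pos hD]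
      exact hD.choose_spec.1
    · simp only [g, dif_neg hD]
      exact hW₀
  have hgC : ∀ D, (∃ W ∈ A, ∀ s, W ∉ C D s) → ∀ s, g D ∉ C D s := by
    intro D hD
    simp only [g, dif_pos hD]
    exact hD.choose_spec.2
  let T := WType (fun n : J → ℕ => (Σ s : J, Fin (n s)))
  let ev : T → L := WType.elim L (fun x => g (fun s => Finset.univ.image (fun k : Fin (x.1 s) => x.2 ⟨s, k⟩)))
  have hev : ∀ (n : J → ℕ) (f : (Σ s : J, Fin (n s)) → T),
      ev (WType.mk n f) = g (fun s => Finset.univ.image (fun k : Fin (n s) => ev (f ⟨s, k⟩))) := by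
    intro n f
    rfl
  have hevA : ∀ t, ev t ∈ A := by
    rintro ⟨n, f⟩
    rw [hev]
    exact hgA _
  have hclosed : ∀ D : J → Finset L, (∀ s, ∀ W ∈ D s, W ∈ Set.range ev) → g D ∈ Set.range ev := by
    intro D hD
    let n : J → ℕ := fun s => (D s).card
    let en : ∀ s, Fin (n s) ≃ D s := fun s => (D s).equivFin.symm
    choose pre hpre using fun (s : J) (k : Fin (n s)) => hD s (en s k).1 (en s k).2
    refine ⟨WType.mk n (fun x => pre x.1 x.2), ?_⟩
    rw [hev]
    congr 1
    funext s
    ext W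
    simp only [Finset.mem_image, Finset.mem_univ, true_and]
    constructor
    · rintro ⟨k, rfl⟩
      rw [hpre]
      exact (en s k).2
    · intro hW
      refine ⟨(en s).symm ⟨W, hW⟩, ?_⟩
      rw [hpre]
      simp
  have hcard : #T ≤ #(Set J) := by
    apply WType.cardinalMk_le_of_le
    have h2 : #(Set J) = 2 ^ #J := by simp
    rw [h2]
    have hJN : #(J → ℕ) = 2 ^ #J := by
      rw [Cardinal.mk_arrow, Cardinal.mk_nat, Cardinal.lift_aleph0, Cardinal.lift_uzero]
      apply Cardinal.power_eq_two_power hJ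
      · exact (Cardinal.natCast_lt_aleph0 (n := 2)).le
      · exact hJ
    calc (Cardinal.sum fun n : J → ℕ => (2 ^ #J) ^ #(Σ s : J, Fin (n s)))
        ≤ Cardinal.sum fun n : J → ℕ => (2 ^ #J) ^ #J := by
          apply Cardinal.sum_le_sum
          intro n
          apply Cardinal.power_le_power_left
          · exact (Cardinal.power_pos _ (by norm_num)).ne'
          · rw [Cardinal.mk_sigma]
            calc Cardinal.sum (fun s : J => #(Fin (n s))) ≤ Cardinal.sum (fun _ : J => ℵ₀) := by
                  apply Cardinal.sum_le_sum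
                  intro s
                  rw [Cardinal.mk_fin]
                  exact (Cardinal.natCast_lt_aleph0).le
              _ = #J * ℵ₀ := by simp
              _ = #J := Cardinal.mul_aleph0_eq hJ
      _ = 2 ^ #J := by
          rw [Cardinal.sum_const', ← Cardinal.power_mul, Cardinal.mul_eq_self hJ, hJN]
          apply Cardinal.mul_eq_self
          exact hJ.trans (Cardinal.cantor _).le
  -- a surjection from `Set J` onto `T`
  have hTne : Nonempty T := ⟨WType.mk (fun _ => 0) (fun x => x.2.elim0)⟩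
  obtain ⟨e⟩ : Nonempty (T ↪ Set J) := by
    exact hcard
  let p : Set J → T := Function.invFun e
  have hp : Function.Surjective p := Function.invFun_surjective e.injective
  refine ⟨fun q => ev (p q), fun q => hevA _, ?_⟩
  intro U hU
  have hU' : ∀ W ∈ Set.range ev, ∃ s, R s U W := by
    rintro W ⟨t, rfl⟩
    obtain ⟨q, rfl⟩ := hp t
    exact hU q
  -- for each s choose finite set
  choose D hDsub hD using fun s : J => hR s {W | W ∈ Set.range ev ∧ R s U W}
  have hgD := hclosed D (fun s W hW => (hDsub s hW).1)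
  by_cases hne : ∃ W ∈ A, ∀ s, W ∉ C D s
  · exfalso
    obtain ⟨s, hs⟩ := hU' _ hgD
    apply hgC D hne s
    refine ⟨hgA _, ?_⟩
    intro U' hU'
    exact hD s U' hU' _ ⟨hgD, hs⟩
  · push Not at hne
    intro W hW
    obtain ⟨s, hs⟩ := hne W hW
    refine ⟨s, hs.2 U ?_⟩
    intro W' hW'
    exact (hDsub s hW').2

end ClosingOff

/-! ### Noetherian property of finite-dimensional spaces -/

section Noeth

variable {F : Type u} {E : Type v} [Field F] [AddCommGroup E] [Module F E]

/-- Alternating `a`-forms vanishing as soon as one argument lies in `W`. -/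
def altVanish (a : ℕ) (W : Submodule F E) : Submodule F (MultilinearMap F (fun _ : Fin a => E) F) where
  carrier := {m | (∀ v : Fin a → E, ∀ i, v i ∈ W → m v = 0) ∧
    (∀ v : Fin a → E, ∀ i j, v i = v j → i ≠ j → m v = 0)}
  zero_mem' := by simp
  add_mem' := by
    rintro m m' ⟨h1, h2⟩ ⟨h1', h2'⟩
    refine ⟨fun v i hv => ?_, fun v i j hv hij => ?_⟩
    · simp [h1 v i hv, h1' v i hv]
    · simp [h2 v i j hv hij, h2' v i j hv hij]
  smul_mem' := by
    rintro c m ⟨h1, h2⟩
    refine ⟨fun v i hv => ?_, fun v i j hv hij => ?_⟩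
    · simp [h1 v i hv]
    · simp [h2 v i j hv hij]

theorem mem_altVanish {a : ℕ} {W : Submodule F E} {m : MultilinearMap F (fun _ : Fin a => E) F} :
    m ∈ altVanish a W ↔ (∀ v : Fin a → E, ∀ i, v i ∈ W → m v = 0) ∧
    (∀ v : Fin a → E, ∀ i j, v i = v j → i ≠ j → m v = 0) := Iff.rfl

/-- A subspace with basis `u` meets `W` trivially iff some form in `altVanish a W` does not vanish at `u`. -/
theorem inf_ne_bot_iff {a : ℕ} (U W : Submodule F E) (u : Basis (Fin a) F U) :
    U ⊓ W ≠ ⊥ ↔ ∀ m ∈ altVanish a W, m (fun i => (u i : E)) = 0 := by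
  classical
  constructor
  · intro h m hm
    obtain ⟨x, hx, hx0⟩ := (Submodule.ne_bot_iff _).1 h
    obtain ⟨hxU, hxW⟩ := Submodule.mem_inf.1 hx
    set c := u.repr ⟨x, hxU⟩ with hc
    have hsum : x = ∑ i, c i • (u i : E) := by
      have := congrArg (U.subtype) (u.sum_repr ⟨x, hxU⟩)
      rw [map_sum] at this
      simp only [map_smul, Submodule.subtype_apply] at this
      exact this.symm
    have hc0 : ∃ i, c i ≠ 0 := by
      by_contra hcon
      push Not at hcon
      apply hx0
      rw [hsum]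
      simp [hcon]
    obtain ⟨i, hi⟩ := hc0
    have h1 : m (Function.update (fun i => (u i : E)) i x) = 0 := by
      apply hm.1 _ i
      simpa using hxW
    rw [hsum, MultilinearMap.map_update_sum] at h1
    have h2 : ∀ j, m (Function.update (fun i => (u i : E)) i (c j • (u j : E))) =
        if j = i then c i * m (fun i => (u i : E)) else 0 := by
      intro j
      rw [MultilinearMap.map_update_smul]
      by_cases hj : j = i
      · subst hj
        simp
      · rw [if_neg hj]
        have : m (Function.update (fun i => (u i : E)) i (u j : E)) = 0 := by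
          apply hm.2 _ i j
          · simp [Function.update_of_ne hj]
          · exact fun h => hj h.symm
        rw [this, smul_zero]
    simp only [h2, Finset.sum_ite_eq', Finset.mem_univ, if_true] at h1
    exact (mul_eq_zero.1 h1).resolve_left hi
  · intro h hbot
    -- the images of `u i` in `E ⧸ W` are linearly independent
    have hli : LinearIndependent F (fun i => W.mkQ (u i : E)) := by
      rw [Fintype.linearIndependent_iff]
      intro g hg
      have h1 : ∑ i, g i • (u i : E) ∈ U ⊓ W := by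
        refine Submodule.mem_inf.2 ⟨Submodule.sum_mem _ fun i _ => U.smul_mem _ (u i).2, ?_⟩
        rw [← Submodule.Quotient.mk_eq_zero, ← Submodule.mkQ_apply, map_sum]
        simpa using hg
      rw [hbot, Submodule.mem_bot] at h1
      have h2 : ∑ i, g i • u i = 0 := by
        apply Subtype.ext
        simpa using h1
      exact Fintype.linearIndependent_iff.1 u.linearIndependent g h2
    -- a left inverse `E ⧸ W → F^a`
    obtain ⟨π, hπ⟩ : ∃ π : (E ⧸ W) →ₗ[F] (Fin a → F), ∀ i, π (W.mkQ (u i : E)) = Pi.single i 1 := by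
      obtain ⟨π, hπ⟩ := LinearMap.exists_leftInverse_of_injective
        (Fintype.linearCombination F (fun i => W.mkQ (u i : E))) (by
          rw [LinearMap.ker_eq_bot]
          exact hli.fintypeLinearCombination_injective)
      refine ⟨π, fun i => ?_⟩
      have := congrArg (fun f => f (Pi.single i 1)) hπ
      simpa using this
    let M : MultilinearMap F (fun _ : Fin a => E) F :=
      (Matrix.detRowAlternating (R := F) (n := Fin a)).toMultilinearMap.compLinearMap (fun _ => π ∘ₗ W.mkQ)
    have hM : M ∈ altVanish a W := by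
      refine ⟨fun v i hv => ?_, fun v i j hv hij => ?_⟩
      · have h0 : (fun i => (π ∘ₗ W.mkQ) (v i)) i = 0 := by
          simp only [LinearMap.comp_apply, Submodule.mkQ_apply]
          rw [(Submodule.Quotient.mk_eq_zero W).2 hv, map_zero]
        exact MultilinearMap.map_coord_zero
          (Matrix.detRowAlternating (R := F) (n := Fin a)).toMultilinearMap i h0
      · have h0 : (fun i => (π ∘ₗ W.mkQ) (v i)) i = (fun i => (π ∘ₗ W.mkQ) (v i)) j := by
          simp only [hv]
        exact AlternatingMap.map_eq_zero_of_eq (Matrix.detRowAlternating (R := F) (n := Fin a))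
          (fun i => (π ∘ₗ W.mkQ) (v i)) h0 hij
    have h3 := h M hM
    have h4 : M (fun i => (u i : E)) = 1 := by
      simp only [M, MultilinearMap.compLinearMap_apply, LinearMap.comp_apply, hπ]
      have : (fun i : Fin a => (Pi.single i 1 : Fin a → F)) = (1 : Matrix (Fin a) (Fin a) F) := by
        ext i j
        simp [Matrix.one_apply, Pi.single_apply, eq_comm]
      change Matrix.det (fun i : Fin a => (Pi.single i 1 : Fin a → F)) = 1
      rw [this, Matrix.det_one]
    rw [h4] at h3
    exact one_ne_zero h3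

/-- Noetherian property: in a finite-dimensional space, for every set `S` of subspaces there is a finite subset
`t` such that a subspace meeting all members of `t` nontrivially meets all members of `S` nontrivially. -/
theorem noeth [FiniteDimensional F E] (S : Set (Submodule F E)) :
    ∃ t : Finset (Submodule F E), ↑t ⊆ S ∧
      ∀ U : Submodule F E, (∀ W ∈ t, U ⊓ W ≠ ⊥) → ∀ W ∈ S, U ⊓ W ≠ ⊥ := by
  classical
  have key : ∀ a : ℕ, ∃ t : Finset (Submodule F E), ↑t ⊆ S ∧
      ∀ W ∈ S, altVanish a W ≤ ⨆ W' ∈ t, altVanish a W' := by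
    intro a
    obtain ⟨t', ht', hsup⟩ := CompleteLattice.WellFoundedGT.isSupFiniteCompact
      (Submodule F (MultilinearMap F (fun _ : Fin a => E) F)) ((altVanish a) '' S)
    obtain ⟨t, htS, rfl⟩ := Finset.subset_set_image_iff.1 ht'
    refine ⟨t, htS, fun W hW => ?_⟩
    have h1 : altVanish a W ≤ sSup ((altVanish a) '' S) := le_sSup ⟨W, hW, rfl⟩
    rw [hsup, Finset.sup_image] at h1
    simpa [Finset.sup_eq_iSup] using h1
  choose t htS ht using key
  refine ⟨(Finset.range (finrank F E + 1)).biUnion t, ?_, ?_⟩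
  · intro W hW
    simp only [Finset.coe_biUnion, Set.mem_iUnion] at hW
    obtain ⟨a, _, ha⟩ := hW
    exact htS a ha
  · intro U hU W hW
    have hUle : finrank F U ≤ finrank F E := Submodule.finrank_le U
    set a := finrank F U with ha
    let u : Basis (Fin a) F U := finBasis F U
    rw [inf_ne_bot_iff U W u]
    intro m hm
    have h1 : m ∈ ⨆ W' ∈ t a, altVanish a W' := ht a W hW hm
    let K : Submodule F (MultilinearMap F (fun _ : Fin a => E) F) :=
      { carrier := {m | m (fun i => (u i : E)) = 0}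
        zero_mem' := by simp
        add_mem' := by
          intro m m' h h'
          simp only [Set.mem_ofPred_eq] at h h' ⊢
          rw [add_apply, h, h', add_zero]
        smul_mem' := by
          intro c m h
          simp only [Set.mem_ofPred_eq] at h ⊢
          rw [smul_apply, h, smul_zero] }
    have h2 : (⨆ W' ∈ t a, altVanish a W') ≤ K := by
      refine iSup₂_le fun W' hW' m' hm' => ?_
      exact (inf_ne_bot_iff U W' u).1 (hU W' (Finset.mem_biUnion.2
        ⟨a, Finset.mem_range.2 (by omega), hW'⟩)) m' hm'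
    exact h2 h1

/-- The same for the relation `U ⊓ W ⊓ E ≠ ⊥` with `E` a finite-dimensional subspace. -/
theorem noeth' {V : Type v} [AddCommGroup V] [Module F V] (E : Submodule F V) [FiniteDimensional F E]
    (S : Set (Submodule F V)) :
    ∃ t : Finset (Submodule F V), ↑t ⊆ S ∧
      ∀ U : Submodule F V, (∀ W ∈ t, U ⊓ W ⊓ E ≠ ⊥) → ∀ W ∈ S, U ⊓ W ⊓ E ≠ ⊥ := by
  classical
  have key : ∀ U W : Submodule F V, U ⊓ W ⊓ E ≠ ⊥ ↔ U.comap E.subtype ⊓ W.comap E.subtype ≠ ⊥ := by
    intro U W
    rw [Submodule.ne_bot_iff, Submodule.ne_bot_iff]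
    constructor
    · rintro ⟨x, hx, hx0⟩
      obtain ⟨⟨h1, h2⟩, h3⟩ := hx
      refine ⟨⟨x, h3⟩, ⟨h1, h2⟩, ?_⟩
      intro h
      exact hx0 (congrArg Subtype.val h)
    · rintro ⟨x, hx, hx0⟩
      refine ⟨x, ⟨⟨hx.1, hx.2⟩, x.2⟩, ?_⟩
      intro h
      exact hx0 (Subtype.ext h)
  obtain ⟨t', ht', h⟩ := noeth (F := F) (E := E) ((fun W : Submodule F V => W.comap E.subtype) '' S)
  obtain ⟨t, htS, rfl⟩ := Finset.subset_set_image_iff.1 ht'
  refine ⟨t, htS, fun U hU W hW => ?_⟩
  rw [key]
  apply h (U.comap E.subtype)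
  · intro W' hW'
    obtain ⟨W'', hW'', rfl⟩ := Finset.mem_image.1 hW'
    exact (key U W'').1 (hU W'' hW'')
  · exact ⟨W, hW, rfl⟩

end Noeth

/-! ### Maximal filters of a bounded lattice -/

section Abstract

variable {L : Type v} [Lattice L] [BoundedOrder L]

/-- Proper filter of a bounded lattice. -/
structure PF (A : Set L) : Prop where
  top_mem : ⊤ ∈ A
  bot_notMem : ⊥ ∉ A
  mem_of_ge : ∀ U ∈ A, ∀ W, U ≤ W → W ∈ A
  inf_mem : ∀ U ∈ A, ∀ W ∈ A, U ⊓ W ∈ A

theorem PF.finset_inf_mem {A : Set L} (hA : PF A) {ι : Type*} (t : Finset ι) (f : ι → L)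
    (h : ∀ i ∈ t, f i ∈ A) : t.inf f ∈ A := by
  classical
  induction t using Finset.induction_on with
  | empty => simpa using hA.top_mem
  | insert a s ha ih =>
    rw [Finset.inf_insert]
    exact hA.inf_mem _ (h a (Finset.mem_insert_self _ _)) _
      (ih fun i hi => h i (Finset.mem_insert_of_mem hi))

theorem exists_maximal_of_PF {A : Set L} (hA : PF A) : ∃ M, A ⊆ M ∧ Maximal PF M := by
  refine zorn_subset_nonempty {B : Set L | PF B} ?_ A hA
  intro c hc hchain hne
  refine ⟨⋃₀ c, ?_, fun s hs => Set.subset_sUnion_of_mem hs⟩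
  constructor
  · obtain ⟨B, hB⟩ := hne
    exact ⟨B, hB, (hc hB).top_mem⟩
  · rintro ⟨B, hB, h⟩
    exact (hc hB).bot_notMem h
  · rintro U ⟨B, hB, hU⟩ W hUW
    exact ⟨B, hB, (hc hB).mem_of_ge U hU W hUW⟩
  · rintro U ⟨B, hB, hU⟩ W ⟨B', hB', hW⟩
    rcases hchain.total hB hB' with h | h
    · exact ⟨B', hB', (hc hB').inf_mem U (h hU) W hW⟩
    · exact ⟨B, hB, (hc hB).inf_mem U hU W (h hW)⟩

theorem exists_maximal_of_fip {X : Type w} (f : X → L) (hf : ∀ t : Finset X, t.inf f ≠ ⊥) :
    ∃ M : Set L, (∀ x, f x ∈ M) ∧ Maximal PF M := by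
  classical
  have hA : PF {W : L | ∃ t : Finset X, t.inf f ≤ W} := by
    constructor
    · exact ⟨∅, le_top⟩
    · rintro ⟨t, ht⟩
      exact hf t (le_bot_iff.1 ht)
    · rintro U ⟨t, ht⟩ W hUW
      exact ⟨t, ht.trans hUW⟩
    · rintro U ⟨t, ht⟩ W ⟨t', ht'⟩
      refine ⟨t ∪ t', ?_⟩
      rw [Finset.inf_union]
      exact inf_le_inf ht ht'
  obtain ⟨M, hM, hmax⟩ := exists_maximal_of_PF hA
  refine ⟨M, fun x => hM ⟨{x}, ?_⟩, hmax⟩
  simp

/-- An independent matrix of elements gives many maximal filters. -/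
theorem exists_injective_of_independent {X : Type w} {C : Type u} (A : X → C → L)
    (hdisj : ∀ x c d, c ≠ d → A x c ⊓ A x d = ⊥)
    (hind : ∀ f : X → C, ∀ t : Finset X, (t.inf fun x => A x (f x)) ≠ ⊥) :
    ∃ g : (X → C) → {M : Set L // Maximal PF M}, Function.Injective g := by
  choose g hg hmax using fun f : X → C => exists_maximal_of_fip (fun x => A x (f x)) (hind f)
  refine ⟨fun f => ⟨g f, hmax f⟩, ?_⟩
  intro f f' hff
  have hff' : g f = g f' := congrArg Subtype.val hff
  funext x
  by_contra hne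
  have h1 : A x (f x) ∈ g f := hg f x
  have h2 : A x (f' x) ∈ g f := by
    rw [hff']
    exact hg f' x
  have h3 := (hmax f).prop.inf_mem _ h1 _ h2
  rw [hdisj x _ _ hne] at h3
  exact (hmax f).prop.bot_notMem h3

/-- A maximal filter contains everything that meets all its members. -/
theorem mem_of_meets {M : Set L} (hM : Maximal PF M) (U : L) (hU : ∀ W ∈ M, U ⊓ W ≠ ⊥) : U ∈ M := by
  have hA : PF {W : L | ∃ W' ∈ M, U ⊓ W' ≤ W} := by
    constructor
    · exact ⟨⊤, hM.prop.top_mem, le_top⟩
    · rintro ⟨W', hW', h⟩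
      exact hU W' hW' (le_bot_iff.1 h)
    · rintro W₁ ⟨W', hW', h⟩ W hle
      exact ⟨W', hW', h.trans hle⟩
    · rintro W₁ ⟨W₁', hW₁', h₁⟩ W₂ ⟨W₂', hW₂', h₂⟩
      refine ⟨W₁' ⊓ W₂', hM.prop.inf_mem _ hW₁' _ hW₂', ?_⟩
      refine le_inf ?_ ?_
      · exact (inf_le_inf le_rfl inf_le_left).trans h₁
      · exact (inf_le_inf le_rfl inf_le_right).trans h₂
  have hsub : M ≤ {W : L | ∃ W' ∈ M, U ⊓ W' ≤ W} := fun W hW => ⟨W, hW, inf_le_right⟩
  exact hM.le_of_ge hA hsub ⟨⊤, hM.prop.top_mem, by simp⟩

end Abstract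

/-! ### An independent matrix of subspaces (filters) -/

section FilterMatrix

variable {F : Type u} {V : Type v} {ι : Type w} [Field F] [AddCommGroup V] [Module F V]

open Classical in
/-- trace of a set on a finset -/
noncomputable def tr (x : Set ι) (s : Finset ι) : Finset ι := s.filter (· ∈ x)

open Classical in
/-- The subspace of those `v` with `v (s, σ ∪ {x ∩ s}) = c * v (s, σ)` whenever `x ∩ s ∉ σ`. -/
def fm (b : Basis (Finset ι × Finset (Finset ι)) F V) (x : Set ι) (c : F) : Submodule F V where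
  carrier := {v | ∀ s : Finset ι, ∀ σ : Finset (Finset ι), tr x s ∉ σ →
    b.repr v (s, insert (tr x s) σ) = c * b.repr v (s, σ)}
  zero_mem' := by simp
  add_mem' := by
    intro v v' h h' s σ hσ
    rw [map_add, Finsupp.add_apply, Finsupp.add_apply, h s σ hσ, h' s σ hσ, mul_add]
  smul_mem' := by
    intro r v h s σ hσ
    rw [map_smul, Finsupp.smul_apply, Finsupp.smul_apply, h s σ hσ, smul_eq_mul, smul_eq_mul]
    ring

open Classical in
theorem mem_fm (b : Basis (Finset ι × Finset (Finset ι)) F V) (x : Set ι) (c : F) (v : V) :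
    v ∈ fm b x c ↔ ∀ s : Finset ι, ∀ σ : Finset (Finset ι), tr x s ∉ σ →
    b.repr v (s, insert (tr x s) σ) = c * b.repr v (s, σ) := Iff.rfl

theorem fm_disj (b : Basis (Finset ι × Finset (Finset ι)) F V) (x : Set ι) (c d : F) (hcd : c ≠ d) :
    fm b x c ⊓ fm b x d = ⊥ := by
  classical
  rw [eq_bot_iff]
  rintro v ⟨h1, h2⟩
  rw [Submodule.mem_bot]
  have h3 : ∀ s σ, tr x s ∉ σ → b.repr v (s, σ) = 0 := by
    intro s σ hσ
    have e1 := h1 s σ hσ
    have e2 := h2 s σ hσ
    rw [e1] at e2
    have : (c - d) * b.repr v (s, σ) = 0 := by rw [sub_mul, e2, sub_self]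
    exact (mul_eq_zero.1 this).resolve_left (sub_ne_zero.2 hcd)
  have h4 : b.repr v = 0 := by
    ext ⟨s, σ⟩
    by_cases hσ : tr x s ∈ σ
    · have e1 := h1 s (σ.erase (tr x s)) (Finset.notMem_erase _ _)
      rw [Finset.insert_erase hσ, h3 s _ (Finset.notMem_erase _ _), mul_zero] at e1
      simpa using e1
    · simpa using h3 s σ hσ
  exact (LinearEquiv.map_eq_zero_iff _).1 h4

theorem exists_sep {X : Type*} (P : X → ι → Prop) (hP : ∀ x x', x ≠ x' → ∃ i, ¬ (P x i ↔ P x' i)) (t : Finset X) :
    ∃ s : Finset ι, ∀ x ∈ t, ∀ x' ∈ t, x ≠ x' → ∃ i ∈ s, ¬ (P x i ↔ P x' i) := by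
  classical
  choose g hg using hP
  refine ⟨(t ×ˢ t).biUnion (fun p => if h : p.1 ≠ p.2 then {g p.1 p.2 h} else ∅), ?_⟩
  intro x hx x' hx' hne
  refine ⟨g x x' hne, ?_, hg x x' hne⟩
  rw [Finset.mem_biUnion]
  exact ⟨(x, x'), Finset.mem_product.2 ⟨hx, hx'⟩, by simp [hne]⟩

theorem fm_ind (b : Basis (Finset ι × Finset (Finset ι)) F V) (f : Set ι → F) (t : Finset (Set ι)) :
    (t.inf fun x => fm b x (f x)) ≠ ⊥ := by
  classical
  obtain ⟨s, hs⟩ := exists_sep (fun (x : Set ι) i => i ∈ x) (by
    intro x x' hne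
    by_contra hcon
    push Not at hcon
    exact hne (Set.ext hcon)) t
  -- `c y = f x` for `y = x ∩ s`, `x ∈ t`
  have hinj : ∀ x ∈ t, ∀ x' ∈ t, tr x s = tr x' s → x = x' := by
    intro x hx x' hx' h
    by_contra hne
    obtain ⟨i, his, hi⟩ := hs x hx x' hx' hne
    apply hi
    have := congrArg (fun y => i ∈ y) h
    simpa [tr, his] using this
  let T : Finset (Finset ι) := t.image (fun x => tr x s)
  have hcex : ∀ y : Finset ι, ∃ c : F, ∀ x ∈ t, tr x s = y → f x = c := by
    intro y
    by_cases hy : ∃ x ∈ t, tr x s = y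
    · obtain ⟨x, hx, hxy⟩ := hy
      refine ⟨f x, fun x' hx' hx'y => ?_⟩
      rw [hinj x' hx' x hx (hx'y.trans hxy.symm)]
    · push Not at hy
      exact ⟨0, fun x hx h => absurd h (hy x hx)⟩
  choose c hc using hcex
  -- the common vector
  let w : (Finset ι × Finset (Finset ι)) →₀ F :=
    Finsupp.onFinset (({s} : Finset (Finset ι)) ×ˢ T.powerset)
      (fun p => if p.1 = s ∧ p.2 ⊆ T then ∏ y ∈ p.2, c y else 0) (by
        rintro ⟨p, q⟩ h
        have : p = s ∧ q ⊆ T := by
          by_contra hcon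
          exact h (if_neg hcon)
        simp [this.1, this.2])
  have hw : ∀ p, w p = if p.1 = s ∧ p.2 ⊆ T then ∏ y ∈ p.2, c y else 0 := fun p => rfl
  let v : V := b.repr.symm w
  have hv : b.repr v = w := by simp [v]
  have hmem : v ∈ t.inf fun x => fm b x (f x) := by
    rw [Submodule.mem_finsetInf]
    intro x hx s' σ hσ
    rw [hv, hw, hw]
    by_cases h1 : s' = s
    · subst h1
      have hxT : tr x s' ∈ T := Finset.mem_image_of_mem _ hx
      by_cases h2 : σ ⊆ T
      · rw [if_pos ⟨rfl, Finset.insert_subset hxT h2⟩, if_pos ⟨rfl, h2⟩, Finset.prod_insert hσ]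
        rw [hc (tr x s') x hx rfl]
      · rw [if_neg (fun h => h2 ((Finset.subset_insert _ _).trans h.2)), if_neg (fun h => h2 h.2), mul_zero]
    · rw [if_neg (fun h => h1 h.1), if_neg (fun h => h1 h.1), mul_zero]
  intro hbot
  rw [hbot, Submodule.mem_bot] at hmem
  have h0 : w (s, ∅) = 1 := by rw [hw]; simp
  rw [← hv, hmem] at h0
  simp at h0

end FilterMatrix

/-! ### An independent matrix of subspaces (ideals) -/

section IdealMatrix

variable {F : Type u} {V : Type v} {ι : Type w} [Field F] [AddCommGroup V] [Module F V]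

/-- polynomial ring used below -/
abbrev PR (F : Type u) (ι : Type w) [Field F] := MvPolynomial (ι ⊕ ℕ) F

/-- the moment-curve polynomial attached to `x : ι → F` -/
noncomputable def mc (x : ι → F) (j : Finset ι × ℕ) : PR F ι :=
  ∑ k ∈ Finset.range j.2, (∑ i ∈ j.1, MvPolynomial.C (x i) * MvPolynomial.X (Sum.inl i)) ^ k *
    MvPolynomial.X (Sum.inr k)

/-- `f` or `1 - f`. -/
noncomputable def mcb (x : ι → F) (j : Finset ι × ℕ) : Bool → PR F ι
  | false => mc x j
  | true => 1 - mc x j

/-- subspace of families divisible by `mcb x j ε` at each coordinate `j`. -/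
noncomputable def im (e : V ≃ₗ[F] ((Finset ι × ℕ) →₀ PR F ι)) (x : ι → F) (c : Bool) : Submodule F V where
  carrier := {v | ∀ j, mcb x j c ∣ e v j}
  zero_mem' := by simp
  add_mem' := by
    intro v v' h h' j
    rw [map_add, Finsupp.add_apply]
    exact dvd_add (h j) (h' j)
  smul_mem' := by
    intro r v h j
    rw [map_smul, Finsupp.smul_apply, Algebra.smul_def]
    exact Dvd.dvd.mul_left (h j) _

theorem im_sup (e : V ≃ₗ[F] ((Finset ι × ℕ) →₀ PR F ι)) (x : ι → F) : im e x false ⊔ im e x true = ⊤ := by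
  classical
  rw [eq_top_iff]
  intro v _
  have key : ∀ p : Finset ι × ℕ → PR F ι, ∃ v' : V, ∀ j, e v' j = p j * e v j := by
    intro p
    refine ⟨e.symm (Finsupp.onFinset (e v).support (fun j => p j * e v j) ?_), ?_⟩
    · intro j hj
      rw [Finsupp.mem_support_iff]
      exact right_ne_zero_of_mul hj
    · intro j
      simp
  obtain ⟨v1, hv1⟩ := key (fun j => mcb x j false)
  obtain ⟨v2, hv2⟩ := key (fun j => mcb x j true)
  have hsum : v1 + v2 = v := by
    apply e.injective
    ext1 j
    rw [map_add, Finsupp.add_apply, hv1, hv2, ← add_mul]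
    simp [mcb]
  rw [← hsum]
  exact Submodule.add_mem_sup (fun j => by rw [hv1]; exact Dvd.intro _ rfl)
    (fun j => by rw [hv2]; exact Dvd.intro _ rfl)

theorem im_sup' (e : V ≃ₗ[F] ((Finset ι × ℕ) →₀ PR F ι)) (x : ι → F) (c d : Bool) (hcd : c ≠ d) :
    im e x c ⊔ im e x d = ⊤ := by
  rcases c <;> rcases d
  · exact absurd rfl hcd
  · exact im_sup e x
  · rw [sup_comm]
    exact im_sup e x
  · exact absurd rfl hcd

omit [Field F] in
theorem exists_sepF (t : Finset (ι → F)) :
    ∃ s : Finset ι, ∀ x ∈ t, ∀ x' ∈ t, x ≠ x' → ∃ i ∈ s, x i ≠ x' i := by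
  classical
  have hP : ∀ x x' : ι → F, x ≠ x' → ∃ i, x i ≠ x' i := fun x x' h => Function.ne_iff.1 h
  choose g hg using hP
  refine ⟨(t ×ˢ t).biUnion (fun p => if h : p.1 ≠ p.2 then {g p.1 p.2 h} else ∅), ?_⟩
  intro x hx x' hx' hne
  refine ⟨g x x' hne, ?_, hg x x' hne⟩
  rw [Finset.mem_biUnion]
  exact ⟨(x, x'), Finset.mem_product.2 ⟨hx, hx'⟩, by simp [hne]⟩

/-- Main point: any finite choice has a common zero over a field. -/
theorem exists_common_zero (f : (ι → F) → Bool) (t : Finset (ι → F)) :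
    ∃ (j : Finset ι × ℕ) (K : Type (max u w)) (_ : Field K) (φ : PR F ι →+* K), ∀ x ∈ t, φ (mcb x j (f x)) = 0 := by
  classical
  obtain ⟨s, hs⟩ := exists_sepF t
  let K := FractionRing (MvPolynomial ι F)
  let β : (ι → F) → MvPolynomial ι F := fun x => ∑ i ∈ s, MvPolynomial.C (x i) * MvPolynomial.X i
  let β' : (ι → F) → K := fun x => algebraMap (MvPolynomial ι F) K (β x)
  have hcoeff : ∀ x : ι → F, ∀ i ∈ s, (β x).coeff (Finsupp.single i 1) = x i := by
    intro x i hi
    simp only [β, MvPolynomial.coeff_sum, MvPolynomial.coeff_C_mul, MvPolynomial.coeff_X]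
    simp [Finsupp.single_left_inj, hi]
  have hβinj : Set.InjOn β' t := by
    intro x hx x' hx' h
    by_contra hne
    obtain ⟨i, hi, hxi⟩ := hs x hx x' hx' hne
    have h1 : β x = β x' := IsFractionRing.injective (MvPolynomial ι F) K h
    apply hxi
    rw [← hcoeff x i hi, ← hcoeff x' i hi, h1]
  let y : (ι → F) → K := fun x => if f x then 1 else 0
  let q : Polynomial K := Lagrange.interpolate t β' y
  have hq : ∀ x ∈ t, q.eval (β' x) = y x := fun x hx => Lagrange.eval_interpolate_at_node y hβinj hx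
  have hdeg : q.natDegree < t.card + 1 := by
    have := Lagrange.degree_interpolate_lt (r := y) hβinj
    have h2 : q.degree < ((t.card : ℕ) : WithBot ℕ) := this
    by_cases h0 : q = 0
    · rw [h0]; simp
    · have := (Polynomial.natDegree_lt_iff_degree_lt h0).2 h2
      omega
  let φ : PR F ι →+* K := MvPolynomial.eval₂Hom ((algebraMap (MvPolynomial ι F) K).comp MvPolynomial.C)
    (Sum.elim (fun i => algebraMap (MvPolynomial ι F) K (MvPolynomial.X i)) (fun k => q.coeff k))
  refine ⟨(s, t.card + 1), K, inferInstance, φ, ?_⟩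
  intro x hx
  have h1 : φ (mc x (s, t.card + 1)) = y x := by
    rw [← hq x hx, Polynomial.eval_eq_sum_range' hdeg]
    simp only [mc, map_sum, map_mul, map_pow]
    apply Finset.sum_congr rfl
    intro k _
    have e1 : φ (MvPolynomial.X (Sum.inr k)) = q.coeff k := by simp [φ]
    have e2 : ∀ i, φ (MvPolynomial.X (Sum.inl i)) = algebraMap (MvPolynomial ι F) K (MvPolynomial.X i) := by
      intro i; simp [φ]
    have e3 : ∀ c, φ (MvPolynomial.C c) = algebraMap (MvPolynomial ι F) K (MvPolynomial.C c) := by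
      intro c; simp [φ]
    simp only [e1, e2, e3]
    rw [mul_comm]
    congr 2
    simp only [β', β, map_sum, map_mul]
  cases hfx : f x
  · simp only [mcb]
    rw [h1]
    simp [y, hfx]
  · simp only [mcb]
    rw [map_sub, h1]
    simp [y, hfx]

theorem im_ind (e : V ≃ₗ[F] ((Finset ι × ℕ) →₀ PR F ι)) (f : (ι → F) → Bool) (t : Finset (ι → F)) :
    (t.sup fun x => im e x (f x)) ≠ ⊤ := by
  classical
  obtain ⟨j, K, _, φ, hφ⟩ := exists_common_zero f t
  let N : Submodule F V :=
    { carrier := {v | φ (e v j) = 0}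
      zero_mem' := by simp
      add_mem' := by
        intro v v' h h'
        change φ (e (v + v') j) = 0
        have h : φ (e v j) = 0 := h
        have h' : φ (e v' j) = 0 := h'
        rw [map_add, Finsupp.add_apply, map_add, h, h', add_zero]
      smul_mem' := by
        intro r v h
        change φ (e (r • v) j) = 0
        have h : φ (e v j) = 0 := h
        rw [map_smul, Finsupp.smul_apply, Algebra.smul_def, map_mul, h, mul_zero] }
  have hle : (t.sup fun x => im e x (f x)) ≤ N := by
    apply Finset.sup_le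
    intro x hx v hv
    change φ (e v j) = 0
    obtain ⟨c, hc⟩ := hv j
    rw [hc, map_mul, hφ x hx, zero_mul]
  intro htop
  rw [htop, top_le_iff] at hle
  have h1 : e.symm (Finsupp.single j 1) ∈ N := by rw [hle]; trivial
  have h2 : φ (e (e.symm (Finsupp.single j 1)) j) = 0 := h1
  rw [LinearEquiv.apply_symm_apply, Finsupp.single_eq_same, map_one] at h2
  exact one_ne_zero h2

end IdealMatrix

section Counting

variable {F : Type u} {V : Type v} [Field F] [AddCommGroup V] [Module F V]

theorem isSubspaceFilter_iff (A : Set (Submodule F V)) : IsSubspaceFilter F V A ↔ PF A :=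
  ⟨fun h => ⟨h.top_mem, h.bot_notMem, h.mem_of_ge, h.inf_mem⟩,
   fun h => ⟨h.top_mem, h.bot_notMem, h.mem_of_ge, h.inf_mem⟩⟩

theorem isSubspaceIdeal_iff (A : Set (Submodule F V)) :
    IsSubspaceIdeal F V A ↔ PF (L := (Submodule F V)ᵒᵈ) (OrderDual.ofDual ⁻¹' A) :=
  ⟨fun h => ⟨h.bot_mem, h.top_notMem, fun U hU W hW => h.mem_of_le U hU W hW, h.sup_mem⟩,
   fun h => ⟨h.top_mem, h.bot_notMem, fun U hU W hW => h.mem_of_ge U hU W hW, h.inf_mem⟩⟩

theorem maximalFilters_eq : maximalFilters F V = {A | Maximal PF A} := by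
  have : IsSubspaceFilter F V = PF := funext fun A => propext (isSubspaceFilter_iff A)
  unfold maximalFilters
  rw [this]

theorem maximalIdeals_eq :
    maximalIdeals F V = {A : Set (Submodule F V) | Maximal (PF (L := (Submodule F V)ᵒᵈ)) (OrderDual.ofDual ⁻¹' A)} := by
  have : IsSubspaceIdeal F V = fun A : Set (Submodule F V) => PF (L := (Submodule F V)ᵒᵈ) (OrderDual.ofDual ⁻¹' A) :=
    funext fun A => propext (isSubspaceIdeal_iff A)
  unfold maximalIdeals
  rw [this]
  rfl

theorem card_J {ι : Type v} [Infinite ι] : #(Finset ι × Finset (Finset ι)) = #ι := by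
  simp [Cardinal.mk_finset_of_infinite]

theorem card_pow_aux (f k : Cardinal.{w}) (hf : 2 ≤ f) (hk : ℵ₀ ≤ k) : (max k f) ^ k ≤ f ^ k := by
  have h1 : max k f ≤ f ^ k := by
    apply max_le
    · exact (Cardinal.cantor k).le.trans (Cardinal.power_le_power_right hf)
    · calc f = f ^ (1 : Cardinal) := (Cardinal.power_one f).symm
        _ ≤ f ^ k := Cardinal.power_le_power_left (by
            rintro rfl
            simp at hf) (Cardinal.one_le_aleph0.trans hk)
  calc (max k f) ^ k ≤ (f ^ k) ^ k := Cardinal.power_le_power_right h1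
    _ = f ^ k := by rw [← Cardinal.power_mul, Cardinal.mul_eq_self hk]

/-- The number of subspaces is at most `|F| ^ κ`. -/
theorem card_submodule_le {ι : Type v} [Infinite ι] (b : Basis ι F V) :
    Cardinal.lift.{u} #(Submodule F V) ≤ (Cardinal.lift.{v} #F) ^ (Cardinal.lift.{u} #ι) := by
  classical
  have h2 : (2 : Cardinal) ≤ Cardinal.lift.{v} #F := by
    have h : (2 : Cardinal.{u}) ≤ #F := by
      rw [Cardinal.two_le_iff]
      exact ⟨0, 1, zero_ne_one⟩
    simpa using Cardinal.lift_le.{v}.2 h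
  have hk : ℵ₀ ≤ Cardinal.lift.{u} #ι := by
    rw [Cardinal.aleph0_le_lift]
    exact Cardinal.aleph0_le_mk ι
  have hV : Cardinal.lift.{u} #V = max (Cardinal.lift.{u} #ι) (Cardinal.lift.{v} #F) := by
    have h1 := Cardinal.lift_mk_eq'.2 ⟨b.repr.toEquiv⟩
    rw [Cardinal.mk_finsupp_lift_of_infinite] at h1
    simp only [Cardinal.lift_max, Cardinal.lift_lift] at h1
    rw [Cardinal.lift_umax.{v, u}] at h1
    simpa using h1
  have hsurj : Function.Surjective (fun g : ι → V => Submodule.span F (Set.range g)) := by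
    intro U
    -- a basis of `U` has at most `#ι` elements
    let bU := Basis.ofVectorSpace F U
    have hle : #(Basis.ofVectorSpaceIndex F U) ≤ #ι := by
      rw [bU.mk_eq_rank'', b.mk_eq_rank'']
      exact Submodule.rank_le U
    obtain ⟨j⟩ : Nonempty (Basis.ofVectorSpaceIndex F U ↪ ι) := hle
    refine ⟨fun i => if h : ∃ a, j a = i then (bU h.choose : V) else 0, ?_⟩
    apply le_antisymm
    · rw [Submodule.span_le]
      rintro _ ⟨i, rfl⟩
      by_cases h : ∃ a, j a = i
      · simp only [dif_pos h]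
        exact (bU h.choose).2
      · simp only [dif_neg h]
        exact U.zero_mem
    · have h1 : Submodule.map U.subtype (Submodule.span F (Set.range bU)) = U := by
        rw [bU.span_eq]
        simp
      intro x hx
      rw [← h1, Submodule.map_span] at hx
      refine Submodule.span_mono ?_ hx
      rintro _ ⟨_, ⟨a, rfl⟩, rfl⟩
      refine ⟨j a, ?_⟩
      have h : ∃ a', j a' = j a := ⟨a, rfl⟩
      simp only [dif_pos h]
      rw [j.injective h.choose_spec]
      rfl
  have h3 : #(Submodule F V) ≤ #(ι → V) := Cardinal.mk_le_of_surjective hsurj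
  calc Cardinal.lift.{u} #(Submodule F V) ≤ Cardinal.lift.{u} #(ι → V) := Cardinal.lift_le.2 h3
    _ = (max (Cardinal.lift.{u} #ι) (Cardinal.lift.{v} #F)) ^ (Cardinal.lift.{u} #ι) := by
        rw [← hV, ← Cardinal.lift_power, Cardinal.power_def]
    _ ≤ _ := card_pow_aux _ _ h2 hk

/-- Lower bound for filters. -/
theorem le_card_maximalFilters {ι : Type v} [Infinite ι] (b : Basis ι F V) :
    (Cardinal.lift.{v} #F) ^ ((2 : Cardinal) ^ (Cardinal.lift.{u} #ι)) ≤
      Cardinal.lift.{u} #(maximalFilters F V) := by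
  obtain ⟨e⟩ : Nonempty (ι ≃ (Finset ι × Finset (Finset ι))) := Cardinal.eq.1 card_J.symm
  let b' := b.reindex e
  obtain ⟨g, hg⟩ := exists_injective_of_independent (fm b') (fm_disj b') (fm_ind b')
  have h1 : Cardinal.lift.{v} #(Set ι → F) ≤ Cardinal.lift.{max u v} #(maximalFilters F V) := by
    rw [maximalFilters_eq]
    exact Cardinal.mk_le_of_injective (α := ULift.{v} (Set ι → F)) (β := ULift.{max u v} {M : Set (Submodule F V) // Maximal PF M}) (f := fun x => ULift.up (g x.down)) (by
      intro x y h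
      have := hg (ULift.up_injective h)
      exact ULift.down_injective this)
  have h2 : Cardinal.lift.{v} #(Set ι → F) = (Cardinal.lift.{v} #F) ^ ((2 : Cardinal) ^ (Cardinal.lift.{u} #ι)) := by
    rw [Cardinal.mk_arrow]
    simp only [Cardinal.mk_set, Cardinal.lift_power, Cardinal.lift_lift, Cardinal.lift_two]
    rw [Cardinal.lift_umax.{v, u}]
  have h3 : Cardinal.lift.{max u v} #(maximalFilters F V) = Cardinal.lift.{u} #(maximalFilters F V) := by
    rw [Cardinal.lift_umax.{v, u}]
  rw [← h2, ← h3]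
  exact h1

/-- Upper bound for filters. -/
theorem card_maximalFilters_le {ι : Type v} [Infinite ι] (b : Basis ι F V) :
    Cardinal.lift.{u} #(maximalFilters F V) ≤
      (Cardinal.lift.{v} #F) ^ ((2 : Cardinal) ^ (Cardinal.lift.{u} #ι)) := by
  classical
  let E : Finset ι → Submodule F V := fun s => Submodule.span F (b '' s)
  have hE : ∀ s, FiniteDimensional F (E s) := by
    intro s
    exact FiniteDimensional.span_of_finite F ((Finset.finite_toSet s).image b)
  have hmeet : ∀ U W : Submodule F V, U ⊓ W ≠ ⊥ ↔ ∃ s, U ⊓ W ⊓ E s ≠ ⊥ := by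
    intro U W
    constructor
    · intro h
      obtain ⟨x, hx, hx0⟩ := (Submodule.ne_bot_iff _).1 h
      refine ⟨(b.repr x).support, (Submodule.ne_bot_iff _).2 ⟨x, ⟨hx, ?_⟩, hx0⟩⟩
      exact (b.mem_span_image).2 (by simp)
    · rintro ⟨s, hs⟩ h
      rw [h, bot_inf_eq] at hs
      exact hs rfl
  have hcardJ : #(Finset ι) = #ι := Cardinal.mk_finset_of_infinite ι
  have hJ : ℵ₀ ≤ #(Finset ι) := by
    rw [hcardJ]
    exact Cardinal.aleph0_le_mk ι
  have key : ∀ A : {M : Set (Submodule F V) // Maximal PF M}, ∃ h : Set (Finset ι) → Submodule F V,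
      ∀ U, U ∈ A.1 ↔ ∀ q, U ⊓ h q ≠ ⊥ := by
    rintro ⟨A, hA⟩
    obtain ⟨h, hmem, hdet⟩ := closing_off hJ (fun s U W => U ⊓ W ⊓ E s ≠ ⊥)
      (fun s S => haveI := hE s; noeth' (E s) S) A ⟨⊤, hA.prop.top_mem⟩
    refine ⟨h, fun U => ⟨fun hU q hq => ?_, fun hU => ?_⟩⟩
    · have := hA.prop.inf_mem U hU _ (hmem q)
      rw [hq] at this
      exact hA.prop.bot_notMem this
    · apply mem_of_meets hA
      intro W hW
      rw [hmeet]
      exact hdet U (fun q => (hmeet _ _).1 (hU q)) W hW
  choose h hh using key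
  have hinj : Function.Injective h := by
    intro A A' hAA
    apply Subtype.ext
    ext U
    rw [hh A U, hh A' U, hAA]
  have h1 : #(maximalFilters F V) ≤ #(Set (Finset ι) → Submodule F V) := by
    rw [maximalFilters_eq]
    exact Cardinal.mk_le_of_injective hinj
  have hk : ℵ₀ ≤ Cardinal.lift.{u} #ι := by
    rw [Cardinal.aleph0_le_lift]
    exact Cardinal.aleph0_le_mk ι
  calc Cardinal.lift.{u} #(maximalFilters F V)
      ≤ Cardinal.lift.{u} #(Set (Finset ι) → Submodule F V) := Cardinal.lift_le.2 h1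
    _ = (Cardinal.lift.{u} #(Submodule F V)) ^ ((2 : Cardinal) ^ (Cardinal.lift.{u} #ι)) := by
        rw [← Cardinal.power_def, Cardinal.mk_set, hcardJ]
        simp
    _ ≤ ((Cardinal.lift.{v} #F) ^ (Cardinal.lift.{u} #ι)) ^ ((2 : Cardinal) ^ (Cardinal.lift.{u} #ι)) :=
        Cardinal.power_le_power_right (card_submodule_le b)
    _ = (Cardinal.lift.{v} #F) ^ ((2 : Cardinal) ^ (Cardinal.lift.{u} #ι)) := by
        rw [← Cardinal.power_mul]
        congr 1
        apply Cardinal.mul_eq_right
        · exact hk.trans (Cardinal.cantor _).le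
        · exact (Cardinal.cantor _).le
        · intro h0
          rw [h0] at hk
          exact absurd hk (not_le.2 Cardinal.aleph0_pos)

/-- Upper bound for ideals. -/
theorem card_maximalIdeals_le {ι : Type v} [Infinite ι] (b : Basis ι F V) :
    Cardinal.lift.{u} #(maximalIdeals F V) ≤
      (2 : Cardinal) ^ ((Cardinal.lift.{v} #F) ^ (Cardinal.lift.{u} #ι)) := by
  calc Cardinal.lift.{u} #(maximalIdeals F V) ≤ Cardinal.lift.{u} #(Set (Submodule F V)) :=
        Cardinal.lift_le.2 (Cardinal.mk_set_le _)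
    _ = 2 ^ (Cardinal.lift.{u} #(Submodule F V)) := by simp
    _ ≤ _ := Cardinal.power_le_power_left two_ne_zero (card_submodule_le b)

/-- Lower bound for ideals. -/
theorem le_card_maximalIdeals {ι : Type v} [Infinite ι] (b : Basis ι F V) :
    (2 : Cardinal) ^ ((Cardinal.lift.{v} #F) ^ (Cardinal.lift.{u} #ι)) ≤
      Cardinal.lift.{u} #(maximalIdeals F V) := by
  classical
  let b₂ : Basis (Σ _ : Finset ι × ℕ, (ι ⊕ ℕ) →₀ ℕ) F ((Finset ι × ℕ) →₀ PR F ι) :=
    Finsupp.basis (fun _ => MvPolynomial.basisMonomials (ι ⊕ ℕ) F)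
  have hcard : #ι = #(Σ _ : Finset ι × ℕ, (ι ⊕ ℕ) →₀ ℕ) := by
    have hι := Cardinal.aleph0_le_mk ι
    simp [Cardinal.mk_finset_of_infinite, hι, Cardinal.add_eq_left, Cardinal.mul_eq_self hι]
  obtain ⟨e₀⟩ : Nonempty (ι ≃ (Σ _ : Finset ι × ℕ, (ι ⊕ ℕ) →₀ ℕ)) := Cardinal.eq.1 hcard
  let e : V ≃ₗ[F] ((Finset ι × ℕ) →₀ PR F ι) := b.equiv b₂ e₀
  obtain ⟨g, hg⟩ := exists_injective_of_independent (L := (Submodule F V)ᵒᵈ) (X := ι → F) (C := Bool)
    (fun x c => OrderDual.toDual (im e x c)) (fun x c d hcd => im_sup' e x c d hcd) (fun f t => im_ind e f t)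
  have h1 : #((ι → F) → Bool) ≤ Cardinal.lift.{max u v} #(maximalIdeals F V) := by
    rw [maximalIdeals_eq]
    exact Cardinal.mk_le_of_injective (α := ((ι → F) → Bool)) (β := ULift.{max u v} {A : Set (Submodule F V) // Maximal (PF (L := (Submodule F V)ᵒᵈ)) (OrderDual.ofDual ⁻¹' A)}) (f := fun x => ULift.up ⟨OrderDual.toDual ⁻¹' (g x).1, (g x).2⟩) (by
      intro x y h
      apply hg
      apply Subtype.ext
      exact congrArg Subtype.val (ULift.up_injective h))
  have h2 : #((ι → F) → Bool) = (2 : Cardinal) ^ ((Cardinal.lift.{v} #F) ^ (Cardinal.lift.{u} #ι)) := by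
    rw [Cardinal.mk_arrow]
    simp
  have h3 : Cardinal.lift.{max u v} #(maximalIdeals F V) = Cardinal.lift.{u} #(maximalIdeals F V) := by
    rw [Cardinal.lift_umax.{v, u}]
  rw [← h2, ← h3]
  exact h1

end Counting

/-- **Answer to Q1.** Let `V` be a vector space of infinite dimension `κ` over an arbitrary field `F`. Then the set of
maximal ideals of the lattice of subspaces of `V` has cardinality `2 ^ (|F| ^ κ)`, and the set of maximal filters on
this lattice has cardinality `|F| ^ (2 ^ κ)`. (The `lift`s only move the cardinals to a common universe.) -/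
theorem result (F : Type u) (V : Type v) [Field F] [AddCommGroup V] [Module F V]
    (hV : ℵ₀ ≤ Module.rank F V) :
    Cardinal.lift.{u} #(maximalIdeals F V) =
        (2 : Cardinal) ^ ((Cardinal.lift.{v} #F) ^ (Cardinal.lift.{u} (Module.rank F V))) ∧
      Cardinal.lift.{u} #(maximalFilters F V) =
        (Cardinal.lift.{v} #F) ^ ((2 : Cardinal) ^ (Cardinal.lift.{u} (Module.rank F V))) := by
  let b := Basis.ofVectorSpace F V
  have hb : #(Basis.ofVectorSpaceIndex F V) = Module.rank F V := b.mk_eq_rank''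
  have : Infinite (Basis.ofVectorSpaceIndex F V) := by
    rw [Cardinal.infinite_iff, hb]
    exact hV
  rw [← hb]
  exact ⟨le_antisymm (card_maximalIdeals_le b) (le_card_maximalIdeals b),
    le_antisymm (card_maximalFilters_le b) (le_card_maximalFilters b)⟩

end Pool.Agent.Results.MP_f0da7f_al.MaximalCounts
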